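import Mathlib
import Pool.Agent.Helper358.General

set_option autoImplicit false

namespace Pool.Agent.Results.MP_ca7a0e_gt.AllListedHomeo

/-- The space of all `x` with absolute sum at most one and `a i ≤ x i ≤ b i` for all `i`
(the absolute sum is at most one when all finite partial sums are), a subset of the product. -/
def B {κ : Type*} (a b : κ → ℝ) : Set (κ → ℝ) :=
  {x | (∀ s : Finset κ, ∑ i ∈ s, |x i| ≤ 1) ∧ ∀ i, a i ≤ x i ∧ x i ≤ b i}

open Classical in
/-- The pairs `(a, b)` of the list: the full ball, the positive part, the half ball,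
and the two families of truncations. -/
inductive Listed {κ : Type*} : (κ → ℝ) → (κ → ℝ) → Prop
  | ball : Listed (fun _ => -1) (fun _ => 1)
  | pos : Listed (fun _ => 0) (fun _ => 1)
  | half (i₀ : κ) : Listed (fun i => if i = i₀ then 0 else -1) (fun _ => 1)
  | trunc (t : ℝ) (h0 : 0 < t) (h1 : t < 1) : Listed (fun _ => -t) (fun _ => t)
  | posTrunc (t : ℝ) (h0 : 0 < t) (h1 : t < 1) : Listed (fun _ => 0) (fun _ => t)

/-- Any two of the listed spaces are homeomorphic. -/
theorem result (κ : Type*) [Uncountable κ] (a b a' b' : κ → ℝ)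
    (h : Listed a b) (h' : Listed a' b') :
    Nonempty (↥(B a b) ≃ₜ ↥(B a' b')) := by
  have key : ∀ a b : κ → ℝ, Listed a b →
      Nonempty (Pool.Agent.Helper358.Box.Pos κ ≃ₜ B a b) := by
    intro a b hab
    have h1 : (∀ i, a i < b i) ∧ (∀ i, a i ≤ 0) ∧ ∀ i, 0 ≤ b i := by
      cases hab with
      | ball => exact ⟨fun _ => by norm_num, fun _ => by norm_num, fun _ => by norm_num⟩
      | pos => exact ⟨fun _ => by norm_num, fun _ => by norm_num, fun _ => by norm_num⟩
      | half i₀ =>
        refine ⟨fun i => ?_, fun i => ?_, fun _ => by norm_num⟩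
        · by_cases hi : i = i₀
          · simp [hi]
          · simp only [if_neg hi]; norm_num
        · by_cases hi : i = i₀
          · simp [hi]
          · simp only [if_neg hi]; norm_num
      | trunc t h0 h1 => exact ⟨fun _ => by linarith, fun _ => by linarith, fun _ => h0.le⟩
      | posTrunc t h0 h1 => exact ⟨fun _ => h0, fun _ => le_rfl, fun _ => h0.le⟩
    have e : (fun i => max (a i) 0 + max (-b i) 0) = fun _ => 0 := by
      funext i
      rw [max_eq_right (h1.2.1 i), max_eq_right (by linarith [h1.2.2 i])]; ring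
    exact Pool.Agent.Helper358.General.B_homeo_Pos a b h1.1 (by rw [e]; exact summable_zero)
      (by rw [e]; simp)
  obtain ⟨h1⟩ := key a b h
  obtain ⟨h2⟩ := key a' b' h'
  exact ⟨h1.symm.trans h2⟩

end Pool.Agent.Results.MP_ca7a0e_gt.AllListedHomeo
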